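import Pool.Agent.helper81.WS.Spec

set_option autoImplicit false

open Finset

namespace Pool.Agent.WS

open Module Pointwise

open Pool.Agent.helper85.PG (IsSys rr)

/-- The sum of the inverses of the sizes of the cells over `S ⊆ B` is at most the number of cells met. -/
theorem COL_cells {p : ℕ} (B S : Finset (ZMod p)) (f : ZMod p → ZMod p) (hS : S ⊆ B) :
    ∑ b ∈ S, ((cf B f b).card : ℝ)⁻¹ ≤ ((S.image f).card : ℝ) := by
  classical
  have h1 : ∑ b ∈ S, ((cf B f b).card : ℝ)⁻¹ =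
      ∑ j ∈ S.image f, ∑ b ∈ S.filter (fun b => f b = j), ((cf B f b).card : ℝ)⁻¹ := by
    rw [Finset.sum_fiberwise_of_maps_to (fun b hb => Finset.mem_image_of_mem f hb)]
  rw [h1]
  have h2 : ∀ j ∈ S.image f, ∑ b ∈ S.filter (fun b => f b = j), ((cf B f b).card : ℝ)⁻¹ ≤ 1 := by
    intro j hj
    have h3 : ∑ b ∈ S.filter (fun b => f b = j), ((cf B f b).card : ℝ)⁻¹ =
        ∑ b ∈ S.filter (fun b => f b = j), (((B.filter fun b' => f b' = j).card : ℕ) : ℝ)⁻¹ := by
      refine Finset.sum_congr rfl (fun b hb => ?_)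
      have : f b = j := (Finset.mem_filter.1 hb).2
      unfold cf
      rw [this]
    rw [h3, Finset.sum_const, nsmul_eq_mul]
    have h4 : (S.filter (fun b => f b = j)).card ≤ (B.filter fun b' => f b' = j).card :=
      Finset.card_le_card (Finset.filter_subset_filter _ hS)
    obtain ⟨b, hb, hbj⟩ := Finset.mem_image.1 hj
    have h5 : 0 < (B.filter fun b' => f b' = j).card :=
      Finset.card_pos.2 ⟨b, Finset.mem_filter.2 ⟨hS hb, hbj⟩⟩
    have h6 : (0 : ℝ) < (((B.filter fun b' => f b' = j).card : ℕ) : ℝ) := by exact_mod_cast h5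
    rw [← div_eq_mul_inv, div_le_one h6]
    exact_mod_cast h4
  calc _ ≤ ∑ j ∈ S.image f, (1 : ℝ) := Finset.sum_le_sum h2
    _ = _ := by simp

theorem COL_nu {p : ℕ} [Fact p.Prime] (B : Finset (ZMod p)) (f : ZMod p → ZMod p) (w : ZMod p → ℝ)
    (κ : ℝ) (H R : Finset (ZMod p)) (hw : ∀ c, 0 ≤ w c ∧ w c ≤ 1)
    (hH : ∀ b ∈ B, ∀ b' ∈ cf B f b, b' ≠ b → b' - b ∈ H) (hR : ∀ b ∈ B, ∀ c, w c ≠ 0 → c + b ∈ R)
    (hκ : ∀ y : ZMod p, ((((B.filter fun b => w (y - b) ≠ 0).image f).card : ℕ) : ℝ) ≤ κ)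
    (x : ZMod p) :
    nu B f w x ≤ κ * ((H.filter fun h => x * h ∈ R).card : ℝ) := by
  classical
  have h1 : nu B f w x ≤ ∑ b ∈ B, ∑ h ∈ H.filter (fun h => x * h ∈ R),
      (if w (x * h - b) ≠ 0 then ((cf B f b).card : ℝ)⁻¹ else 0) := by
    unfold nu
    refine Finset.sum_le_sum (fun b hb => ?_)
    have e1 : ∑ b' ∈ (cf B f b).erase b, ((cf B f b).card : ℝ)⁻¹ * w (x * (b' - b) - b) ≤
        ∑ b' ∈ (cf B f b).erase b,
          (if w (x * (b' - b) - b) ≠ 0 then ((cf B f b).card : ℝ)⁻¹ else 0) := by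
      refine Finset.sum_le_sum (fun b' _ => ?_)
      split_ifs with h
      · exact mul_le_of_le_one_right (by positivity) (hw _).2
      · rw [not_not.1 h, mul_zero]
    refine e1.trans ?_
    rw [← Finset.sum_filter, ← Finset.sum_filter]
    have e2 : ∑ b' ∈ ((cf B f b).erase b).filter (fun b' => w (x * (b' - b) - b) ≠ 0),
        ((cf B f b).card : ℝ)⁻¹ =
        ∑ h ∈ (((cf B f b).erase b).filter (fun b' => w (x * (b' - b) - b) ≠ 0)).image
          (fun b' => b' - b), ((cf B f b).card : ℝ)⁻¹ := by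
      rw [Finset.sum_image (fun u _ v _ huv => by simpa using huv)]
    rw [e2]
    refine Finset.sum_le_sum_of_subset_of_nonneg ?_ (fun _ _ _ => by positivity)
    intro h hh
    obtain ⟨b', hb', rfl⟩ := Finset.mem_image.1 hh
    obtain ⟨hb1, hb2⟩ := Finset.mem_filter.1 hb'
    obtain ⟨hne, hcf⟩ := Finset.mem_erase.1 hb1
    refine Finset.mem_filter.2 ⟨Finset.mem_filter.2 ⟨hH b hb b' hcf hne, ?_⟩, hb2⟩
    have := hR b hb _ hb2
    simpa using this
  refine h1.trans ?_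
  rw [Finset.sum_comm]
  have h2 : ∀ h ∈ H.filter (fun h => x * h ∈ R),
      ∑ b ∈ B, (if w (x * h - b) ≠ 0 then ((cf B f b).card : ℝ)⁻¹ else 0) ≤ κ := by
    intro h _
    rw [← Finset.sum_filter]
    exact (COL_cells B _ f (Finset.filter_subset _ _)).trans (hκ (x * h))
  calc _ ≤ ∑ h ∈ H.filter (fun h => x * h ∈ R), κ := Finset.sum_le_sum h2
    _ = _ := by rw [Finset.sum_const, nsmul_eq_mul, mul_comm]

theorem COL_pair {p : ℕ} [Fact p.Prime] (R R2 : Finset (ZMod p))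
    (hR2 : ∀ y ∈ R, ∀ y' ∈ R, y - y' ∈ R2) (h h' : ZMod p) (hh' : h' ≠ 0) :
    ((Finset.univ : Finset (ZMod p)).filter fun x => x * h ∈ R ∧ x * h' ∈ R).card ≤
      rr R2 (h / h') := by
  classical
  rcases Finset.eq_empty_or_nonempty
    ((Finset.univ : Finset (ZMod p)).filter fun x => x * h ∈ R ∧ x * h' ∈ R) with he | ⟨x0, hx0⟩
  · rw [he]; simp
  · obtain ⟨-, a1, a2⟩ := Finset.mem_filter.1 hx0
    unfold rr
    refine Finset.card_le_card_of_injOn (fun x => (x - x0) * h') ?_ ?_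
    · intro x hx
      obtain ⟨-, b1, b2⟩ := Finset.mem_filter.1 (Finset.mem_coe.1 hx)
      refine Finset.mem_coe.2 (Finset.mem_filter.2 ⟨?_, ?_⟩)
      · show (x - x0) * h' ∈ R2
        rw [sub_mul]; exact hR2 _ b2 _ a2
      · have : h / h' * ((x - x0) * h') = x * h - x0 * h := by
          field_simp
        show h / h' * ((x - x0) * h') ∈ R2
        rw [this]
        exact hR2 _ b1 _ a1
    · intro x _ x' _ hxx
      have := mul_right_cancel₀ hh' hxx
      simpa using this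

theorem COL : COL_stmt := by
  classical
  intro p _ B f w κ H R R2 hw hκ0 h0 hH hR hR2 hκ
  have h1 : ∀ x : ZMod p, nu B f w x ^ 2 ≤
      κ ^ 2 * ∑ h ∈ H, ∑ h' ∈ H, (if x * h ∈ R ∧ x * h' ∈ R then (1 : ℝ) else 0) := by
    intro x
    have e0 : 0 ≤ nu B f w x := by
      unfold nu
      exact Finset.sum_nonneg (fun b _ => Finset.sum_nonneg (fun b' _ =>
        mul_nonneg (by positivity) (hw _).1))
    have e1 := COL_nu B f w κ H R hw hH hR hκ x
    have e2 : ((H.filter fun h => x * h ∈ R).card : ℝ) ^ 2 =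
        ∑ h ∈ H, ∑ h' ∈ H, (if x * h ∈ R ∧ x * h' ∈ R then (1 : ℝ) else 0) := by
      have e3 : ((H.filter fun h => x * h ∈ R).card : ℝ) = ∑ h ∈ H, (if x * h ∈ R then (1 : ℝ) else 0) := by
        rw [Finset.sum_boole]
      rw [e3, sq, Finset.sum_mul_sum]
      refine Finset.sum_congr rfl (fun h _ => Finset.sum_congr rfl (fun h' _ => ?_))
      by_cases a : x * h ∈ R <;> by_cases b : x * h' ∈ R <;> simp [a, b]
    rw [← e2, ← mul_pow]
    exact pow_le_pow_left₀ e0 e1 2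
  refine (Finset.sum_le_sum (fun x _ => h1 x)).trans ?_
  rw [← Finset.mul_sum]
  refine mul_le_mul_of_nonneg_left ?_ (sq_nonneg κ)
  rw [Finset.sum_comm]
  refine Finset.sum_le_sum (fun h hh => ?_)
  rw [Finset.sum_comm]
  refine Finset.sum_le_sum (fun h' hh' => ?_)
  rw [Finset.sum_boole]
  exact_mod_cast COL_pair R R2 hR2 h h' (fun e => h0 (e ▸ hh'))

end Pool.Agent.WS
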